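import Pool.Agent.Run7.h102.Nak.HOMb

/-! Piece HOM of helper433's project: exactness of `Hom_T (Fm m, X)`. -/

set_option autoImplicit false

namespace Run7.h102.Nak

open Run7.h433.Nak

theorem extE (hX : S_XCL) {m N : ℕ} (hN : (N : ZMod 2) = 0) (hN2 : 2 ≤ N)
    (x bf bx x2 : Vm m →ₗ[ℚ] Vm 0) (h : ∀ y : Zm m, y ∈ Fm m N → PhE x bf bx x2 y.1 = 0) :
    x = 0 ∧ bf = 0 ∧ bx = 0 ∧ x2 = 0 := by
  have XV := hX (Vm m)
  have h1 : x = 0 := by
    apply XV.u00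
    intro a ha
    have := h (j1 m a) (j1_mem (by rw [hN]; exact ha))
    rw [j1_apply] at this
    simpa [PhE, th_zerox] using this
  have h2 : bf = 0 ∧ bx = 0 := by
    apply XV.u12
    intro a ha
    have := h (j2 m a) (j2_mem (by rw [hN, zero_add]; exact ha) (fun h => by omega))
    rw [j2_apply] at this
    simpa [PhE, th_zerox] using this
  have h3 : x2 = 0 := by
    apply XV.u04
    intro a ha
    have := h (j3 m a) (j3_mem (by rw [hN]; exact ha) (fun h => by omega))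
    rw [j3_apply] at this
    simpa [PhE, th_zerox] using this
  exact ⟨h1, h2.1, h2.2, h3⟩

theorem extO (hX : S_XCL) {m N : ℕ} (hN : (N : ZMod 2) = 1)
    (x yf yx w : Vm m →ₗ[ℚ] Vm 0) (h : ∀ y : Zm m, y ∈ Fm m N → PhO x yf yx w y.1 = 0) :
    x = 0 ∧ yf = 0 ∧ yx = 0 ∧ (2 ≤ N → w = 0) := by
  have XV := hX (Vm m)
  have hN0 : N ≠ 0 := by
    rintro rfl
    exact absurd hN (by decide)
  have h11 : (1 : ZMod 2) + 1 = 0 := by decide
  have h1 : x = 0 := by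
    apply XV.u10
    intro a ha
    have := h (j1 m a) (j1_mem (by rw [hN]; exact ha))
    rw [j1_apply] at this
    simpa [PhO, th_zerox] using this
  have h2 : yf = 0 ∧ yx = 0 := by
    apply XV.u02
    intro a ha
    have := h (j2 m a) (j2_mem (by rw [hN, h11]; exact ha) (fun h => absurd h hN0))
    rw [j2_apply] at this
    simpa [PhO, th_zerox] using this
  refine ⟨h1, h2.1, h2.2, fun hN2 => ?_⟩
  apply XV.u14
  intro a ha
  have := h (j3 m a) (j3_mem (by rw [hN]; exact ha) (fun h => by omega))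
  rw [j3_apply] at this
  simpa [PhO, th_zerox] using this

theorem PhE_dm (hT : S_THR) (m n : ℕ) (x bf bx x2 : Vm m →ₗ[ℚ] Vm 0) (y : Zm m) :
    PhE x bf bx x2 (dm m n y).1 = PhE x bf bx x2 (dC (SV m) n y.1) := by
  rw [dm_fst]
  have h2 := (PhEl hT x bf bx x2).map_add (dC (SV m) n y.1) (Y3 (vP m) (vQ m) y.2)
  have h3 := PhE_Y3 hT (vP m) (vQ m) x bf bx x2 y.2
  change PhE x bf bx x2 (dC (SV m) n y.1 + Y3 (vP m) (vQ m) y.2) =
    PhE x bf bx x2 (dC (SV m) n y.1) + PhE x bf bx x2 (Y3 (vP m) (vQ m) y.2) at h2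
  rw [h2, h3, add_zero]

theorem PhO_dm (hT : S_THR) (m n : ℕ) (x yf yx w : Vm m →ₗ[ℚ] Vm 0) (y : Zm m) :
    PhO x yf yx w (dm m n y).1 = PhO x yf yx w (dC (SV m) n y.1) := by
  rw [dm_fst]
  have h2 := (PhOl hT x yf yx w).map_add (dC (SV m) n y.1) (Y3 (vP m) (vQ m) y.2)
  have h3 := PhO_Y3 hT (vP m) (vQ m) x yf yx w y.2
  change PhO x yf yx w (dC (SV m) n y.1 + Y3 (vP m) (vQ m) y.2) =
    PhO x yf yx w (dC (SV m) n y.1) + PhO x yf yx w (Y3 (vP m) (vQ m) y.2) at h2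
  rw [h2, h3, add_zero]

/-- the map on `Fm m n` given by functionals -/
def gE (hT : S_THR) (m n : ℕ) (x bf bx x2 : Vm m →ₗ[ℚ] Vm 0) : ↥(Fm m n) →ₗ[T] X :=
  PhEl hT x bf bx x2 ∘ₗ LinearMap.fst T _ _ ∘ₗ (Fm m n).subtype

/-- the map on `Fm m n` given by functionals -/
def gO (hT : S_THR) (m n : ℕ) (x yf yx w : Vm m →ₗ[ℚ] Vm 0) : ↥(Fm m n) →ₗ[T] X :=
  PhOl hT x yf yx w ∘ₗ LinearMap.fst T _ _ ∘ₗ (Fm m n).subtype

theorem gE_apply (hT : S_THR) (m n : ℕ) (x bf bx x2 : Vm m →ₗ[ℚ] Vm 0) (y : Zm m)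
    (hy : y ∈ Fm m n) : gE hT m n x bf bx x2 ⟨y, hy⟩ = PhE x bf bx x2 y.1 := rfl

theorem gO_apply (hT : S_THR) (m n : ℕ) (x yf yx w : Vm m →ₗ[ℚ] Vm 0) (y : Zm m)
    (hy : y ∈ Fm m n) : gO hT m n x yf yx w ⟨y, hy⟩ = PhO x yf yx w y.1 := rfl

theorem hom (hX : S_XCL) (hT : S_THR) (hS : S_SL2)
    (hmap : ∀ m n x, x ∈ Fm m (n + 1) → dm m n x ∈ Fm m n) (hV : S_VS) : S_HOM where
  ex := by
    intro m n f hc
    have S2 := hS (Vm 0)
    have hnz : ((n : ZMod 2) = 0 ∧ ((n + 1 : ℕ) : ZMod 2) = 1) ∨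
        ((n : ZMod 2) = 1 ∧ ((n + 1 : ℕ) : ZMod 2) = 0) := by
      rcases Nat.even_or_odd n with h | h
      · exact Or.inl ⟨ZMod.natCast_eq_zero_iff_even.mpr h,
          ZMod.natCast_eq_one_iff_odd.mpr h.add_one⟩
      · exact Or.inr ⟨ZMod.natCast_eq_one_iff_odd.mpr h,
          ZMod.natCast_eq_zero_iff_even.mpr h.add_one⟩
    have hn2 : ((n + 2 : ℕ) : ZMod 2) = (n : ZMod 2) := by
      have h20 : (2 : ZMod 2) = 0 := by decide
      rw [Nat.cast_add]
      simp [h20]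
    rcases hnz with ⟨hn, hn1⟩ | ⟨hn, hn1⟩
    · -- `n` even
      obtain ⟨x, yf, yx, w, hf⟩ := reprO hX hT hn1 f
      have h1 : ∀ y : Zm m, y ∈ Fm m (n + 2) →
          PhE 0 (x ∘ₗ vF m - yf ∘ₗ vE m - yx) ((2 : ℚ) • x + x ∘ₗ vH m - yx ∘ₗ vE m)
        (-((2 : ℚ) • yf) + yf ∘ₗ vH m - yx ∘ₗ vF m) y.1 = 0 := by
        intro y hy
        have h := hc y hy (hmap m (n + 1) y hy)
        rw [hf, PhO_dm hT, PhO_d hT _ _ (by omega)] at h
        exact h
      obtain ⟨-, e1, e2, e3⟩ := extE hX (hn2.trans hn) (by omega) _ _ _ _ h1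
      obtain ⟨x0, k1, k2, k3⟩ := S2.H1 m x yf yx e1 e2 e3
      by_cases hn0 : n = 0
      · subst hn0
        refine ⟨gE hT m 0 x0 0 0 0, fun y hy hd => ?_⟩
        rw [hf, gE_apply, PhE_dm hT, PhE_d0 hT]
        have hz : y.1.2.2 = 0 := ((mem_Fm m 1 y).mp hy).1.2.2.2 (by omega)
        unfold PhO
        rw [hz, th_zerox, th_zerox, k1, k2, k3]
        rfl
      · have hn2' : 2 ≤ n := by
          obtain ⟨k, hk⟩ := ZMod.natCast_eq_zero_iff_even.mp hn
          omega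
        rcases Nat.eq_zero_or_pos m with hm | hm
        · subst hm
          have he : vE 0 = 0 := hV.e0
          have hff : vF 0 = 0 := hV.f0
          have hh : vH 0 = 0 := hV.h0
          have hn0' : (n : ℚ) ≠ 0 := by exact_mod_cast hn0
          refine ⟨gE hT 0 n ((n : ℚ)⁻¹ • w) 0 0 0, fun y hy hd => ?_⟩
          rw [hf, gE_apply, PhE_dm hT, PhE_d hT _ n hn2']
          have e1 : (SV 0).e = 0 := hV.e0
          have e2 : (SV 0).f = 0 := hV.f0
          have e3 : (SV 0).h = 0 := hV.h0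
          rw [k1, k2, k3, he, hff, hh, e1, e2, e3]
          simp only [LinearMap.comp_zero, neg_zero, sub_zero, add_zero]
          rw [smul_smul, mul_inv_cancel₀ hn0', one_smul]
        · obtain ⟨m', rfl⟩ : ∃ m', m = m' + 1 := ⟨m - 1, by omega⟩
          obtain ⟨bf, bx, x2, hw⟩ := S2.H3 m' (w - (n : ℚ) • x0)
          refine ⟨gE hT (m' + 1) n x0 bf bx x2, fun y hy hd => ?_⟩
          rw [hf, gE_apply, PhE_dm hT, PhE_d hT _ n hn2', k1, k2, k3]
          have hw' : w = (n : ℚ) • x0 - bf ∘ₗ (SV (m' + 1)).h + bx ∘ₗ (SV (m' + 1)).f -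
              x2 ∘ₗ (SV (m' + 1)).e := by
            rw [eq_comm, sub_eq_iff_eq_add, ← sub_eq_iff_eq_add'] at hw
            have : w = (n : ℚ) • x0 + (-(bf ∘ₗ vH (m' + 1)) + bx ∘ₗ vF (m' + 1) -
                x2 ∘ₗ vE (m' + 1)) := by
              rw [← hw]
              abel
            rw [this]
            show _ = (n : ℚ) • x0 - bf ∘ₗ vH (m' + 1) + bx ∘ₗ vF (m' + 1) - x2 ∘ₗ vE (m' + 1)
            abel
          rw [← hw']
          rfl
    · -- `n` odd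
      have hn0 : 1 ≤ n := by
        rcases Nat.eq_zero_or_pos n with h | h
        · subst h
          exact absurd hn (by decide)
        · exact h
      obtain ⟨x0, bf, bx, x2, -, hf⟩ := reprE hX hT hn1 f
      have h1 : ∀ y : Zm m, y ∈ Fm m (n + 2) →
          PhO (-(x0 ∘ₗ vE m)) (-(x0 ∘ₗ vF m)) (-(x0 ∘ₗ vH m))
        (((n + 1 : ℕ) : ℚ) • x0 - bf ∘ₗ vH m + bx ∘ₗ vF m - x2 ∘ₗ vE m) y.1 = 0 := by
        intro y hy
        have h := hc y hy (hmap m (n + 1) y hy)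
        rw [hf, PhE_dm hT, PhE_d hT _ _ (by omega)] at h
        exact h
      obtain ⟨e1, e2, e3, e4⟩ := extO hX (hn2.trans hn) _ _ _ _ h1
      have e4 := e4 (by omega)
      rw [neg_eq_zero] at e1 e2 e3
      have hx0 : x0 = 0 := by
        rcases Nat.eq_zero_or_pos m with hm | hm
        · subst hm
          have he : vE 0 = 0 := hV.e0
          have hff : vF 0 = 0 := hV.f0
          have hh : vH 0 = 0 := hV.h0
          rw [he, hff, hh] at e4
          simp only [LinearMap.comp_zero, sub_zero, add_zero] at e4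
          rcases smul_eq_zero.mp e4 with h | h
          · exfalso
            have : ((n + 1 : ℕ) : ℚ) ≠ 0 := by exact_mod_cast Nat.succ_ne_zero n
            exact this h
          · exact h
        · obtain ⟨m', rfl⟩ : ∃ m', m = m' + 1 := ⟨m - 1, by omega⟩
          exact S2.H0 m' x0 e1 e2 e3
      rw [hx0, smul_zero, zero_sub] at e4
      obtain ⟨x, yf, yx, k1, k2, k3⟩ := S2.H2 m bf bx x2 e4
      refine ⟨gO hT m n x yf yx 0, fun y hy hd => ?_⟩
      rw [hf, gO_apply, PhO_dm hT, PhO_d hT _ n hn0, hx0, k1, k2, k3]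
      rfl
  zero := by
    intro m f hc
    have S2 := hS (Vm 0)
    obtain ⟨x0, bf, bx, x2, h0, hf⟩ := reprE hX hT (N := 0) (by simp) f
    obtain ⟨rfl, rfl, rfl⟩ := h0 rfl
    have h1 : ∀ y : Zm (m + 1), y ∈ Fm (m + 1) 1 →
        PhO (-(x0 ∘ₗ vE (m + 1))) (-(x0 ∘ₗ vF (m + 1))) (-(x0 ∘ₗ vH (m + 1))) 0 y.1 = 0 := by
      intro y hy
      have h := hc y hy (hmap (m + 1) 0 y hy)
      rw [hf, PhE_dm hT, PhE_d0 hT] at h
      exact h
    obtain ⟨e1, e2, e3, -⟩ := extO hX (by simp) _ _ _ _ h1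
    rw [neg_eq_zero] at e1 e2 e3
    have hx0 := S2.H0 m x0 e1 e2 e3
    apply LinearMap.ext
    rintro ⟨y, hy⟩
    rw [hf, hx0]
    unfold PhE
    rw [th_zero hT, th_zero hT, th_zero hT, th_zero hT]
    simp

end Run7.h102.Nak
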