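import Pool.Agent.Run7.h433.Nak.Iface

/-! Piece HOM of helper433's project: the complexes `Hom_T (Fm m, X)`. -/

set_option autoImplicit false

namespace Run7.h102.Nak

open Run7.h433.Nak

section th

variable {V : Type} [AddCommGroup V] [Module ℚ V]

theorem th_add (hT : S_THR) (s : Matrix I I ℚ) (ψ ψ' : V →ₗ[ℚ] Vm 0) (x : W V) :
    th s (ψ + ψ') x = th s ψ x + th s ψ' x := by
  have h := (hT.1 V ⟨0, 0, 0, by simp, by simp, by simp⟩ ψ).lin s ψ' 1 x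
  rw [one_smul, one_smul] at h
  exact h

theorem th_zero (hT : S_THR) (s : Matrix I I ℚ) (x : W V) : th s (0 : V →ₗ[ℚ] Vm 0) x = 0 := by
  have h := th_add hT s (0 : V →ₗ[ℚ] Vm 0) 0 x
  rw [add_zero] at h
  exact left_eq_add.mp h

theorem th_smul (hT : S_THR) (s : Matrix I I ℚ) (c : ℚ) (ψ : V →ₗ[ℚ] Vm 0) (x : W V) :
    th s (c • ψ) x = c • th s ψ x := by
  have h := (hT.1 V ⟨0, 0, 0, by simp, by simp, by simp⟩ 0).lin s ψ c x
  rw [zero_add, th_zero hT, zero_add] at h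
  exact h

theorem th_neg (hT : S_THR) (s : Matrix I I ℚ) (ψ : V →ₗ[ℚ] Vm 0) (x : W V) :
    th s (-ψ) x = -th s ψ x := by
  have h := th_add hT s (-ψ) ψ x
  rw [neg_add_cancel, th_zero hT] at h
  exact (neg_eq_of_add_eq_zero_left h.symm).symm

theorem th_sub (hT : S_THR) (s : Matrix I I ℚ) (ψ ψ' : V →ₗ[ℚ] Vm 0) (x : W V) :
    th s (ψ - ψ') x = th s ψ x - th s ψ' x := by
  rw [sub_eq_add_neg, th_add hT, th_neg hT, sub_eq_add_neg]

theorem th_addx (s : Matrix I I ℚ) (ψ : V →ₗ[ℚ] Vm 0) (x y : W V) :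
    th s ψ (x + y) = th s ψ x + th s ψ y := by
  unfold th
  rw [map_add, map_add, map_add]

theorem th_zerox (s : Matrix I I ℚ) (ψ : V →ₗ[ℚ] Vm 0) : th s ψ (0 : W V) = 0 := by
  unfold th
  rw [map_zero, map_zero, map_zero]

/-- the map given by functionals, even degree -/
def PhE (x bf bx x2 : V →ₗ[ℚ] Vm 0) (z : W3 V) : X :=
  th 1 x z.1 + (th (mF * mB) bf z.2.1 + th (mX * mB) bx z.2.1) + th (mX * mF) x2 z.2.2

/-- the map given by functionals, odd degree -/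
def PhO (x yf yx w : V →ₗ[ℚ] Vm 0) (z : W3 V) : X :=
  th mB x z.1 + (th mF yf z.2.1 + th mX yx z.2.1) + th (mX * mF * mB) w z.2.2

theorem tl (hT : S_THR) (ψ : V →ₗ[ℚ] Vm 0) {s : Matrix I I ℚ}
    (hs : s ∈ ({1, mB, mF, mX, mF * mB, mX * mB, mX * mF, mX * mF * mB} :
    Set (Matrix I I ℚ))) (t : T) (x : W V) : th s ψ (t • x) = t • th s ψ x :=
  (hT.1 V ⟨0, 0, 0, by simp, by simp, by simp⟩ ψ).tlin s hs t x

/-- `PhE` as a `T`-linear map -/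
def PhEl (hT : S_THR) (x bf bx x2 : V →ₗ[ℚ] Vm 0) : W3 V →ₗ[T] X where
  toFun := PhE x bf bx x2
  map_add' u v := by
    simp only [PhE, Prod.fst_add, Prod.snd_add, th_addx]
    abel
  map_smul' t u := by
    simp only [PhE, Prod.smul_fst, Prod.smul_snd, RingHom.id_apply]
    rw [tl hT x (by simp), tl hT bf (by simp), tl hT bx (by simp), tl hT x2 (by simp),
      smul_add, smul_add, smul_add]

/-- `PhO` as a `T`-linear map -/
def PhOl (hT : S_THR) (x yf yx w : V →ₗ[ℚ] Vm 0) : W3 V →ₗ[T] X where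
  toFun := PhO x yf yx w
  map_add' u v := by
    simp only [PhO, Prod.fst_add, Prod.snd_add, th_addx]
    abel
  map_smul' t u := by
    simp only [PhO, Prod.smul_fst, Prod.smul_snd, RingHom.id_apply]
    rw [tl hT x (by simp), tl hT yf (by simp), tl hT yx (by simp), tl hT w (by simp),
      smul_add, smul_add, smul_add]

theorem PhE_Y3 (hT : S_THR) {V' : Type} [AddCommGroup V'] [Module ℚ V'] (P Q : V' →ₗ[ℚ] V)
    (x bf bx x2 : V →ₗ[ℚ] Vm 0) (z : W3 V') : PhE x bf bx x2 (Y3 P Q z) = 0 := by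
  rw [Y3_apply]
  unfold PhE
  simp only
  rw [hT.2 V V' P Q x 1 (by simp), hT.2 V V' P Q bf _ (by simp), hT.2 V V' P Q bx _ (by simp),
    hT.2 V V' P Q x2 _ (by simp)]
  simp

theorem PhO_Y3 (hT : S_THR) {V' : Type} [AddCommGroup V'] [Module ℚ V'] (P Q : V' →ₗ[ℚ] V)
    (x yf yx w : V →ₗ[ℚ] Vm 0) (z : W3 V') : PhO x yf yx w (Y3 P Q z) = 0 := by
  rw [Y3_apply]
  unfold PhO
  simp only
  rw [hT.2 V V' P Q x mB (by simp), hT.2 V V' P Q yf _ (by simp), hT.2 V V' P Q yx _ (by simp),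
    hT.2 V V' P Q w _ (by simp)]
  simp

theorem PhE_d0 (hT : S_THR) (S : SL V) (x0 : V →ₗ[ℚ] Vm 0) (z : W3 V) :
    PhE x0 0 0 0 (dC S 0 z) = PhO (-(x0 ∘ₗ S.e)) (-(x0 ∘ₗ S.f)) (-(x0 ∘ₗ S.h)) 0 z := by
  rw [dC_apply]
  have H := hT.1 V S x0
  simp only [PhE, PhO, th_zero hT, th_neg hT, th_addx, H.a1, H.z1, Nat.cast_zero, zero_smul,
    th_zerox]
  abel

theorem PhE_d (hT : S_THR) (S : SL V) (n : ℕ) (hn : 2 ≤ n) (x0 bf bx x2 : V →ₗ[ℚ] Vm 0)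
    (z : W3 V) : PhE x0 bf bx x2 (dC S n z) =
      PhO (-(x0 ∘ₗ S.e)) (-(x0 ∘ₗ S.f)) (-(x0 ∘ₗ S.h))
        ((n : ℚ) • x0 - bf ∘ₗ S.h + bx ∘ₗ S.f - x2 ∘ₗ S.e) z := by
  rw [dC_apply, if_neg (by omega : ¬ n = 0), if_neg (by omega : ¬ n < 2)]
  have H := hT.1 V S x0
  have Hf := hT.1 V S bf
  have Hx := hT.1 V S bx
  have H2 := hT.1 V S x2
  simp only [PhE, PhO, th_neg hT, th_add hT, th_sub hT, th_smul hT, th_addx, H.a1, H.z1, H.k1,
    H.smulx, Hf.aBF, Hf.zBF, Hx.aBX, Hx.zBX, H2.aFX]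
  abel

theorem PhO_d (hT : S_THR) (S : SL V) (n : ℕ) (hn : 1 ≤ n) (x yf yx w : V →ₗ[ℚ] Vm 0)
    (z : W3 V) : PhO x yf yx w (dC S n z) =
      PhE 0 (x ∘ₗ S.f - yf ∘ₗ S.e - yx) ((2 : ℚ) • x + x ∘ₗ S.h - yx ∘ₗ S.e)
        (-((2 : ℚ) • yf) + yf ∘ₗ S.h - yx ∘ₗ S.f) z := by
  rw [dC_apply, if_neg (by omega : ¬ n = 0)]
  have H := hT.1 V S x
  have Hf := hT.1 V S yf
  have Hx := hT.1 V S yx
  have Hw := hT.1 V S w
  have h3 : th (mX * mF * mB) w (if n < 2 then 0 else oa S z.2.2) = 0 := by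
    split_ifs
    · exact th_zerox _ _
    · exact Hw.aBFX _
  simp only [PhE, PhO, h3, th_neg hT, th_add hT, th_sub hT, th_smul hT, th_zero hT, th_addx,
    H.aB, H.zB, H.kB, H.smulx, Hf.aF, Hf.zF, Hx.aX, Hx.zX, smul_zero]
  abel

end th

theorem dm_fst (m n : ℕ) (y : Zm m) :
    (dm m n y).1 = dC (SV m) n y.1 + Y3 (vP m) (vQ m) y.2 := by
  cases n <;> rfl

end Run7.h102.Nak
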