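import Pool.Agent.Run7.h102.Nak.HOMa

/-! Piece HOM of helper433's project, second part: components of maps on `Fm m N`. -/

set_option autoImplicit false

namespace Run7.h102.Nak

open Run7.h433.Nak

theorem mem_Fm (m N : ℕ) (y : Zm m) : y ∈ Fm m N ↔ y.1 ∈ Cg (Vm m) 0 N ∧
    (N = 0 → y.2 = 0) ∧ (∀ k, N = k + 1 → y.2 ∈ Cg (Vm (m + 1)) (-3) k) := by
  cases N with
  | zero =>
    constructor
    · intro h
      exact ⟨h.1, fun _ => h.2, fun k hk => by omega⟩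
    · intro h
      exact ⟨h.1, h.2.1 rfl⟩
  | succ k =>
    constructor
    · intro h
      exact ⟨h.1, fun h0 => by omega, fun k' hk => by
        have : k = k' := by omega
        subst this
        exact h.2⟩
    · intro h
      exact ⟨h.1, h.2.2 k rfl⟩

/-- the restriction of a map along a component -/
theorem res {m N : ℕ} (f : ↥(Fm m N) →ₗ[T] X) {V : Type} [AddCommGroup V] [Module ℚ V]
    (S : Submodule T (W V)) (j : W V →ₗ[T] Zm m) (h : ∀ x ∈ S, j x ∈ Fm m N) :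
    ∃ f' : ↥S →ₗ[T] X, ∀ (x : W V) (hx : x ∈ S) (hj : j x ∈ Fm m N), f ⟨j x, hj⟩ = f' ⟨x, hx⟩ :=
  ⟨f ∘ₗ (LinearMap.codRestrict (Fm m N) (j ∘ₗ S.subtype) (fun x => h x.1 x.2)),
    fun _ _ _ => rfl⟩

section comps

variable (m : ℕ)

/-- the components -/
def j1 : W (Vm m) →ₗ[T] Zm m := LinearMap.inl T _ _ ∘ₗ LinearMap.inl T _ _
/-- the components -/
def j2 : W (Vm m) →ₗ[T] Zm m := LinearMap.inl T _ _ ∘ₗ LinearMap.inr T _ _ ∘ₗ LinearMap.inl T _ _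
/-- the components -/
def j3 : W (Vm m) →ₗ[T] Zm m := LinearMap.inl T _ _ ∘ₗ LinearMap.inr T _ _ ∘ₗ LinearMap.inr T _ _
/-- the components -/
def i1 : W (Vm (m + 1)) →ₗ[T] Zm m := LinearMap.inr T _ _ ∘ₗ LinearMap.inl T _ _
/-- the components -/
def i2 : W (Vm (m + 1)) →ₗ[T] Zm m :=
  LinearMap.inr T _ _ ∘ₗ LinearMap.inr T _ _ ∘ₗ LinearMap.inl T _ _
/-- the components -/
def i3 : W (Vm (m + 1)) →ₗ[T] Zm m :=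
  LinearMap.inr T _ _ ∘ₗ LinearMap.inr T _ _ ∘ₗ LinearMap.inr T _ _

end comps

theorem j1_apply (m : ℕ) (x : W (Vm m)) : j1 m x = ((x, 0, 0), 0) := rfl
theorem j2_apply (m : ℕ) (x : W (Vm m)) : j2 m x = ((0, x, 0), 0) := rfl
theorem j3_apply (m : ℕ) (x : W (Vm m)) : j3 m x = ((0, 0, x), 0) := rfl
theorem i1_apply (m : ℕ) (x : W (Vm (m + 1))) : i1 m x = (0, (x, 0, 0)) := rfl
theorem i2_apply (m : ℕ) (x : W (Vm (m + 1))) : i2 m x = (0, (0, x, 0)) := rfl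
theorem i3_apply (m : ℕ) (x : W (Vm (m + 1))) : i3 m x = (0, (0, 0, x)) := rfl

theorem j1_mem {m N : ℕ} {x : W (Vm m)} (hx : x ∈ Wg (Vm m) (N : ZMod 2) 0) :
    j1 m x ∈ Fm m N := by
  rw [mem_Fm]
  exact ⟨⟨hx, ⟨zero_mem _, fun _ => rfl⟩, ⟨zero_mem _, fun _ => rfl⟩⟩, fun _ => rfl,
    fun k _ => zero_mem _⟩

theorem j2_mem {m N : ℕ} {x : W (Vm m)} (hx : x ∈ Wg (Vm m) ((N : ZMod 2) + 1) 2)
    (h : N = 0 → x = 0) : j2 m x ∈ Fm m N := by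
  rw [mem_Fm]
  exact ⟨⟨zero_mem _, ⟨hx, h⟩, ⟨zero_mem _, fun _ => rfl⟩⟩, fun _ => rfl,
    fun k _ => zero_mem _⟩

theorem j3_mem {m N : ℕ} {x : W (Vm m)} (hx : x ∈ Wg (Vm m) (N : ZMod 2) 4)
    (h : N < 2 → x = 0) : j3 m x ∈ Fm m N := by
  rw [mem_Fm]
  exact ⟨⟨zero_mem _, ⟨zero_mem _, fun _ => rfl⟩, ⟨hx, h⟩⟩, fun _ => rfl,
    fun k _ => zero_mem _⟩

theorem i1_mem {m k : ℕ} {x : W (Vm (m + 1))} (hx : x ∈ Wg (Vm (m + 1)) (k : ZMod 2) (-3)) :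
    i1 m x ∈ Fm m (k + 1) := by
  rw [mem_Fm]
  refine ⟨zero_mem _, fun h => by omega, fun k' hk => ?_⟩
  have : k = k' := by omega
  subst this
  exact ⟨hx, ⟨zero_mem _, fun _ => rfl⟩, ⟨zero_mem _, fun _ => rfl⟩⟩

theorem i2_mem {m k : ℕ} {x : W (Vm (m + 1))} (hx : x ∈ Wg (Vm (m + 1)) ((k : ZMod 2) + 1) (-1))
    (h : k = 0 → x = 0) : i2 m x ∈ Fm m (k + 1) := by
  rw [mem_Fm]
  refine ⟨zero_mem _, fun h => by omega, fun k' hk => ?_⟩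
  have : k = k' := by omega
  subst this
  exact ⟨zero_mem _, ⟨hx, h⟩, ⟨zero_mem _, fun _ => rfl⟩⟩

theorem i3_mem {m k : ℕ} {x : W (Vm (m + 1))} (hx : x ∈ Wg (Vm (m + 1)) (k : ZMod 2) 1)
    (h : k < 2 → x = 0) : i3 m x ∈ Fm m (k + 1) := by
  rw [mem_Fm]
  refine ⟨zero_mem _, fun h => by omega, fun k' hk => ?_⟩
  have : k = k' := by omega
  subst this
  exact ⟨zero_mem _, ⟨zero_mem _, fun _ => rfl⟩, ⟨hx, h⟩⟩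

theorem f_zero {m N : ℕ} (f : ↥(Fm m N) →ₗ[T] X) (y : Zm m) (hy : y ∈ Fm m N) (h : y = 0) :
    f ⟨y, hy⟩ = 0 := by
  subst h
  exact map_zero f

theorem comp_zero {m N : ℕ} (f : ↥(Fm m N) →ₗ[T] X) {V : Type} [AddCommGroup V] [Module ℚ V]
    (S : Submodule T (W V)) (j : W V →ₗ[T] Zm m) (h : ∀ x ∈ S, j x ∈ Fm m N)
    (hz : ∀ f' : ↥S →ₗ[T] X, f' = 0) (x : W V) (hx : x ∈ S) (hj : j x ∈ Fm m N) :
    f ⟨j x, hj⟩ = 0 := by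
  obtain ⟨f', hf'⟩ := res f S j h
  rw [hf' x hx hj, hz f']
  rfl

theorem decomp {m N : ℕ} (f : ↥(Fm m N) →ₗ[T] X) (y : Zm m) (hy : y ∈ Fm m N)
    (h1 : j1 m y.1.1 ∈ Fm m N) (h2 : j2 m y.1.2.1 ∈ Fm m N) (h3 : j3 m y.1.2.2 ∈ Fm m N)
    (k1 : i1 m y.2.1 ∈ Fm m N) (k2 : i2 m y.2.2.1 ∈ Fm m N) (k3 : i3 m y.2.2.2 ∈ Fm m N) :
    f ⟨y, hy⟩ = f ⟨_, h1⟩ + f ⟨_, h2⟩ + f ⟨_, h3⟩ + f ⟨_, k1⟩ + f ⟨_, k2⟩ + f ⟨_, k3⟩ := by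
  have e0 : y = j1 m y.1.1 + j2 m y.1.2.1 + j3 m y.1.2.2 + i1 m y.2.1 + i2 m y.2.2.1 +
      i3 m y.2.2.2 := by
    rw [j1_apply, j2_apply, j3_apply, i1_apply, i2_apply, i3_apply]
    refine Prod.ext (Prod.ext ?_ (Prod.ext ?_ ?_)) (Prod.ext ?_ (Prod.ext ?_ ?_)) <;> simp
  have e : (⟨y, hy⟩ : ↥(Fm m N)) = ⟨_, h1⟩ + ⟨_, h2⟩ + ⟨_, h3⟩ + ⟨_, k1⟩ + ⟨_, k2⟩ + ⟨_, k3⟩ :=
    Subtype.ext e0
  rw [e, map_add, map_add, map_add, map_add, map_add]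

/-- the first three components determine the map -/
theorem decomp' (hX : S_XCL) {m N : ℕ} (f : ↥(Fm m N) →ₗ[T] X) (y : Zm m) (hy : y ∈ Fm m N) :
    ∃ (h1 : j1 m y.1.1 ∈ Fm m N) (h2 : j2 m y.1.2.1 ∈ Fm m N) (h3 : j3 m y.1.2.2 ∈ Fm m N),
      f ⟨y, hy⟩ = f ⟨_, h1⟩ + f ⟨_, h2⟩ + f ⟨_, h3⟩ := by
  obtain ⟨⟨a1, ⟨a2, a2'⟩, ⟨a3, a3'⟩⟩, b, c⟩ := (mem_Fm m N y).mp hy
  have h1 : j1 m y.1.1 ∈ Fm m N := j1_mem a1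
  have h2 : j2 m y.1.2.1 ∈ Fm m N := j2_mem a2 a2'
  have h3 : j3 m y.1.2.2 ∈ Fm m N := j3_mem a3 a3'
  refine ⟨h1, h2, h3, ?_⟩
  cases N with
  | zero =>
    have hb := b rfl
    have k1 : i1 m y.2.1 ∈ Fm m 0 := by rw [hb]; exact zero_mem _
    have k2 : i2 m y.2.2.1 ∈ Fm m 0 := by rw [hb]; exact zero_mem _
    have k3 : i3 m y.2.2.2 ∈ Fm m 0 := by rw [hb]; exact zero_mem _
    rw [decomp f y hy h1 h2 h3 k1 k2 k3, f_zero f (i1 m y.2.1) k1 (by rw [hb]; rfl),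
      f_zero f (i2 m y.2.2.1) k2 (by rw [hb]; rfl), f_zero f (i3 m y.2.2.2) k3 (by rw [hb]; rfl)]
    simp
  | succ k =>
    obtain ⟨c1, ⟨c2, c2'⟩, ⟨c3, c3'⟩⟩ := c k rfl
    have c2 : y.2.2.1 ∈ Wg (Vm (m + 1)) ((k : ZMod 2) + 1) (-1) := c2
    have c3 : y.2.2.2 ∈ Wg (Vm (m + 1)) (k : ZMod 2) 1 := c3
    have k1 : i1 m y.2.1 ∈ Fm m (k + 1) := i1_mem c1
    have k2 : i2 m y.2.2.1 ∈ Fm m (k + 1) := i2_mem c2 c2'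
    have k3 : i3 m y.2.2.2 ∈ Fm m (k + 1) := i3_mem c3 c3'
    have e1 : f ⟨_, k1⟩ = 0 := comp_zero f (Wg (Vm (m + 1)) (k : ZMod 2) (-3)) (i1 m)
      (fun x hx => i1_mem hx) ((hX (Vm (m + 1))).cy _ _ (Or.inl rfl)) _ c1 _
    have e2 : f ⟨_, k2⟩ = 0 := by
      by_cases hk : k = 0
      · exact f_zero f _ _ (by rw [c2' hk]; rfl)
      · exact comp_zero f (Wg (Vm (m + 1)) ((k : ZMod 2) + 1) (-1)) (i2 m)
          (fun x hx => i2_mem hx (fun h => absurd h hk))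
          ((hX (Vm (m + 1))).cy _ _ (Or.inr (Or.inl rfl))) _ c2 _
    have e3 : f ⟨_, k3⟩ = 0 := by
      by_cases hk : k < 2
      · exact f_zero f _ _ (by rw [c3' hk]; rfl)
      · exact comp_zero f (Wg (Vm (m + 1)) (k : ZMod 2) 1) (i3 m)
          (fun x hx => i3_mem hx (fun h => absurd h hk))
          ((hX (Vm (m + 1))).cy _ _ (Or.inr (Or.inr rfl))) _ c3 _
    rw [decomp f y hy h1 h2 h3 k1 k2 k3, e1, e2, e3]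
    simp

/-- maps on the terms of even degree -/
theorem reprE (hX : S_XCL) (hT : S_THR) {m N : ℕ} (hN : (N : ZMod 2) = 0)
    (f : ↥(Fm m N) →ₗ[T] X) :
    ∃ x bf bx x2 : Vm m →ₗ[ℚ] Vm 0, (N = 0 → bf = 0 ∧ bx = 0 ∧ x2 = 0) ∧
      ∀ (y : Zm m) (hy : y ∈ Fm m N), f ⟨y, hy⟩ = PhE x bf bx x2 y.1 := by
  have XV := hX (Vm m)
  have h0 : ∃ x : Vm m →ₗ[ℚ] Vm 0, ∀ (a : W (Vm m)), a ∈ Wg (Vm m) (N : ZMod 2) 0 →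
      ∀ hj : j1 m a ∈ Fm m N, f ⟨j1 m a, hj⟩ = th 1 x a := by
    obtain ⟨f', hf'⟩ := res f (Wg (Vm m) 0 0) (j1 m)
      (fun x hx => j1_mem (by rw [hN]; exact hx))
    obtain ⟨ψ, hψ⟩ := XV.c00 f'
    refine ⟨ψ, fun a ha hj => ?_⟩
    rw [hN] at ha
    rw [hf' a ha hj]
    exact hψ ⟨a, ha⟩
  obtain ⟨x, hx⟩ := h0
  by_cases hN0 : N = 0
  · refine ⟨x, 0, 0, 0, fun _ => ⟨rfl, rfl, rfl⟩, fun y hy => ?_⟩
    obtain ⟨h1, h2, h3, e⟩ := decomp' hX f y hy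
    obtain ⟨⟨a1, ⟨a2, a2'⟩, ⟨a3, a3'⟩⟩, -, -⟩ := (mem_Fm m N y).mp hy
    rw [e, hx _ a1, f_zero f _ h2 (by rw [a2' hN0]; rfl),
      f_zero f _ h3 (by rw [a3' (by omega)]; rfl)]
    unfold PhE
    rw [th_zero hT, th_zero hT, th_zero hT]
    simp
  · have hN2 : 2 ≤ N := by
      have : Even N := ZMod.natCast_eq_zero_iff_even.mp hN
      obtain ⟨k, hk⟩ := this
      omega
    have hb : ∃ ψ ψ' : Vm m →ₗ[ℚ] Vm 0, ∀ (a : W (Vm m)),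
        a ∈ Wg (Vm m) ((N : ZMod 2) + 1) 2 → ∀ hj : j2 m a ∈ Fm m N,
        f ⟨j2 m a, hj⟩ = th (mF * mB) ψ a + th (mX * mB) ψ' a := by
      obtain ⟨f', hf'⟩ := res f (Wg (Vm m) 1 2) (j2 m)
        (fun x hx => j2_mem (by rw [hN, zero_add]; exact hx) (fun h => absurd h hN0))
      obtain ⟨ψ, ψ', hψ⟩ := XV.c12 f'
      refine ⟨ψ, ψ', fun a ha hj => ?_⟩
      rw [hN, zero_add] at ha
      rw [hf' a ha hj]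
      exact hψ ⟨a, ha⟩
    have hc : ∃ ψ : Vm m →ₗ[ℚ] Vm 0, ∀ (a : W (Vm m)),
        a ∈ Wg (Vm m) (N : ZMod 2) 4 → ∀ hj : j3 m a ∈ Fm m N,
        f ⟨j3 m a, hj⟩ = th (mX * mF) ψ a := by
      obtain ⟨f', hf'⟩ := res f (Wg (Vm m) 0 4) (j3 m)
        (fun x hx => j3_mem (by rw [hN]; exact hx) (fun h => by omega))
      obtain ⟨ψ, hψ⟩ := XV.c04 f'
      refine ⟨ψ, fun a ha hj => ?_⟩
      rw [hN] at ha
      rw [hf' a ha hj]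
      exact hψ ⟨a, ha⟩
    obtain ⟨bf, bx, hb⟩ := hb
    obtain ⟨x2, hc⟩ := hc
    refine ⟨x, bf, bx, x2, fun h => absurd h hN0, fun y hy => ?_⟩
    obtain ⟨h1, h2, h3, e⟩ := decomp' hX f y hy
    obtain ⟨⟨a1, ⟨a2, a2'⟩, ⟨a3, a3'⟩⟩, -, -⟩ := (mem_Fm m N y).mp hy
    rw [e, hx _ a1, hb _ a2, hc _ a3]
    rfl

/-- maps on the terms of odd degree -/
theorem reprO (hX : S_XCL) (hT : S_THR) {m N : ℕ} (hN : (N : ZMod 2) = 1)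
    (f : ↥(Fm m N) →ₗ[T] X) :
    ∃ x yf yx w : Vm m →ₗ[ℚ] Vm 0,
      ∀ (y : Zm m) (hy : y ∈ Fm m N), f ⟨y, hy⟩ = PhO x yf yx w y.1 := by
  have XV := hX (Vm m)
  have hN0 : N ≠ 0 := by
    rintro rfl
    exact absurd hN (by decide)
  have h11 : (1 : ZMod 2) + 1 = 0 := by decide
  have h0 : ∃ x : Vm m →ₗ[ℚ] Vm 0, ∀ (a : W (Vm m)), a ∈ Wg (Vm m) (N : ZMod 2) 0 →
      ∀ hj : j1 m a ∈ Fm m N, f ⟨j1 m a, hj⟩ = th mB x a := by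
    obtain ⟨f', hf'⟩ := res f (Wg (Vm m) 1 0) (j1 m)
      (fun x hx => j1_mem (by rw [hN]; exact hx))
    obtain ⟨ψ, hψ⟩ := XV.c10 f'
    refine ⟨ψ, fun a ha hj => ?_⟩
    rw [hN] at ha
    rw [hf' a ha hj]
    exact hψ ⟨a, ha⟩
  have hb : ∃ ψ ψ' : Vm m →ₗ[ℚ] Vm 0, ∀ (a : W (Vm m)),
      a ∈ Wg (Vm m) ((N : ZMod 2) + 1) 2 → ∀ hj : j2 m a ∈ Fm m N,
      f ⟨j2 m a, hj⟩ = th mF ψ a + th mX ψ' a := by
    obtain ⟨f', hf'⟩ := res f (Wg (Vm m) 0 2) (j2 m)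
      (fun x hx => j2_mem (by rw [hN, h11]; exact hx) (fun h => absurd h hN0))
    obtain ⟨ψ, ψ', hψ⟩ := XV.c02 f'
    refine ⟨ψ, ψ', fun a ha hj => ?_⟩
    rw [hN, h11] at ha
    rw [hf' a ha hj]
    exact hψ ⟨a, ha⟩
  obtain ⟨x, hx⟩ := h0
  obtain ⟨yf, yx, hb⟩ := hb
  by_cases hN2 : N < 2
  · refine ⟨x, yf, yx, 0, fun y hy => ?_⟩
    obtain ⟨h1, h2, h3, e⟩ := decomp' hX f y hy
    obtain ⟨⟨a1, ⟨a2, a2'⟩, ⟨a3, a3'⟩⟩, -, -⟩ := (mem_Fm m N y).mp hy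
    rw [e, hx _ a1, hb _ a2, f_zero f _ h3 (by rw [a3' hN2]; rfl)]
    unfold PhO
    rw [th_zero hT]
  · have hc : ∃ ψ : Vm m →ₗ[ℚ] Vm 0, ∀ (a : W (Vm m)),
        a ∈ Wg (Vm m) (N : ZMod 2) 4 → ∀ hj : j3 m a ∈ Fm m N,
        f ⟨j3 m a, hj⟩ = th (mX * mF * mB) ψ a := by
      obtain ⟨f', hf'⟩ := res f (Wg (Vm m) 1 4) (j3 m)
        (fun x hx => j3_mem (by rw [hN]; exact hx) (fun h => absurd h hN2))
      obtain ⟨ψ, hψ⟩ := XV.c14 f'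
      refine ⟨ψ, fun a ha hj => ?_⟩
      rw [hN] at ha
      rw [hf' a ha hj]
      exact hψ ⟨a, ha⟩
    obtain ⟨w, hc⟩ := hc
    refine ⟨x, yf, yx, w, fun y hy => ?_⟩
    obtain ⟨h1, h2, h3, e⟩ := decomp' hX f y hy
    obtain ⟨⟨a1, ⟨a2, a2'⟩, ⟨a3, a3'⟩⟩, -, -⟩ := (mem_Fm m N y).mp hy
    rw [e, hx _ a1, hb _ a2, hc _ a3]
    rfl

end Run7.h102.Nak
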