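import Pool.Agent.Results.MP_5dc868_al.NakayamaEquivalent

set_option autoImplicit false
open scoped TensorProduct
open CategoryTheory MulOpposite

/-!
# Consequences of a counterexample to the second Tachikawa conjecture

For every field `K`: if the second Tachikawa conjecture fails over `K`, then so do the frozen
statements S01611 (Gorenstein bimodule conjecture), S01483, S02359, S01709 (first Tachikawa
conjecture, three forms).
-/

namespace Pool.Agent.Run7.h102.Nak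

open Pool.Agent.Results.MP_5dc868_al.NakayamaEquivalent

theorem not_all (K : Type) [Field K] (h : ¬ TachikawaConjectureTwo K) :
    ¬ GorensteinBimoduleConjecture K ∧ ¬ NakayamaConjecture K ∧ ¬ TachikawaConjectureOne K ∧
      ¬ AuslanderReitenConjecture K := by
  have H := Pool.Agent.Results.MP_5dc868_al.NakayamaEquivalent.result K
  refine ⟨fun h1 => h ((H.out 0 3).1 h1), fun h1 => h ((H.out 1 3).1 h1),
    fun h1 => h ((H.out 2 3).1 h1), fun h1 => h ((H.out 4 3).1 h1)⟩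

/-- the statement of S01612 -/
theorem W1612 (K : Type) [Field K] (h : ¬ TachikawaConjectureTwo K) :
    ¬ (∀ (k : Type) [Field k] (A : Type) [Ring A] [Algebra k A] [FiniteDimensional k A]
    [Module (A ⊗[k] Aᵐᵒᵖ) A],
    (∀ (a : A) (b : Aᵐᵒᵖ) (x : A), (a ⊗ₜ[k] b) • x = a * x * MulOpposite.unop b) →
    ∀ [HasExt.{1} (ModuleCat.{0} (A ⊗[k] Aᵐᵒᵖ))]
      [HasExt.{1} (ModuleCat.{0} ((A ⊗[k] Aᵐᵒᵖ)ᵐᵒᵖ))],
    (Module.Injective A A ↔
      ((∀ m : A, (∀ f : A →ₗ[A ⊗[k] Aᵐᵒᵖ] (A ⊗[k] Aᵐᵒᵖ), f m = 0) → m = 0) ∧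
       (∀ φ : (A →ₗ[A ⊗[k] Aᵐᵒᵖ] (A ⊗[k] Aᵐᵒᵖ)) →ₗ[((A ⊗[k] Aᵐᵒᵖ)ᵐᵒᵖ)] (A ⊗[k] Aᵐᵒᵖ),
          ∃ m : A, ∀ f : A →ₗ[A ⊗[k] Aᵐᵒᵖ] (A ⊗[k] Aᵐᵒᵖ), φ f = f m) ∧
       (∀ i : ℕ, 1 ≤ i →
          Subsingleton (Abelian.Ext.{1} (ModuleCat.of (A ⊗[k] Aᵐᵒᵖ) A)
            (ModuleCat.of (A ⊗[k] Aᵐᵒᵖ) (A ⊗[k] Aᵐᵒᵖ)) i)) ∧
       (∀ i : ℕ, 1 ≤ i →
          Subsingleton (Abelian.Ext.{1}
            (ModuleCat.of ((A ⊗[k] Aᵐᵒᵖ)ᵐᵒᵖ) (A →ₗ[A ⊗[k] Aᵐᵒᵖ] (A ⊗[k] Aᵐᵒᵖ)))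
            (ModuleCat.of ((A ⊗[k] Aᵐᵒᵖ)ᵐᵒᵖ) (A ⊗[k] Aᵐᵒᵖ)) i))))) := by
  intro hG
  exact (not_all K h).1 fun A _ _ _ => hG K A

/-- the statement of S01484 -/
theorem W1484 (K : Type) [Field K] (h : ¬ TachikawaConjectureTwo K) :
    ¬ (∀ (k : Type) [Field k] (A : Type) [Ring A] [Algebra k A] [FiniteDimensional k A]
      (M : Type) [AddCommGroup M] [Module A M] [Module k M] [IsScalarTower k A M]
      (e : M ≃ₗ[k] Module.Dual k A),
      (∀ (a : A) (m : M) (x : A), e (a • m) x = e m (x * a)) →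
      ∀ [CategoryTheory.HasExt.{1} (ModuleCat.{0} A)],
      (Module.Injective A A ↔
        ∀ i : ℕ, 1 ≤ i →
          Subsingleton
            (CategoryTheory.Abelian.Ext.{1} (ModuleCat.of A M) (ModuleCat.of A A) i))) := by
  intro hG
  apply (not_all K h).2.2.1
  intro A _ _ _ _ hs hE
  have : IsScalarTower K A (A →ₗ[K] K) := ⟨fun c a f => by
    refine LinearMap.ext fun x => ?_
    rw [hs, LinearMap.smul_apply, hs, mul_smul_comm, map_smul]⟩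
  have : HasExt.{1} (ModuleCat.{0} A) := HasExt.standard _
  refine (hG K A (A →ₗ[K] K) (LinearEquiv.refl K _) (fun a m x => hs a m x)).2 fun i hi => ?_
  have := hE i hi
  exact (Abelian.Ext.chgUniv.{0, 1} (X := ModuleCat.of A (A →ₗ[K] K))
    (Y := ModuleCat.of A A) (n := i)).subsingleton

end Pool.Agent.Run7.h102.Nak
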