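import Pool.Agent.Run7.h102.Nak.WA

set_option autoImplicit false
set_option linter.unusedSectionVars false
open scoped TensorProduct
open CategoryTheory MulOpposite

namespace Pool.Agent.Run7.h102.Nak

open Pool.Agent.Results.MP_5dc868_al.NakayamaEquivalent
open Pool.Agent.Helper426GSC Pool.Agent.Helper426Tach _root_.Run7.h692 _root_.Run7.h692.Eq

/-- a counterexample to the first conjecture of Tachikawa -/
theorem core (K : Type) [Field K] (h : ¬ TachikawaConjectureTwo K) :
    ∃ (A : Type) (_ : Ring A) (_ : Algebra K A) (_ : FiniteDimensional K A),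
      EV A (QD K A) A ∧ ¬ Module.Injective A A := by
  by_contra hc
  apply (not_all K h).2.2.1
  intro A _ _ _ _ hs hE
  by_contra hI
  apply hc
  refine ⟨A, inferInstance, inferInstance, inferInstance, ?_, hI⟩
  let e : (A →ₗ[K] K) ≃ₗ[A] QD K A :=
    { toFun := fun f => mkQ f
      invFun := fun f => f
      left_inv := fun _ => rfl
      right_inv := fun _ => rfl
      map_add' := fun _ _ => rfl
      map_smul' := fun a f => LinearMap.ext fun x => hs a f x }
  intro n
  exact (ev_of hE n).retrL e.symm.toLinearMap e.toLinearMap fun y => rfl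

/-- then the groups `Ext^i(I, A)` vanish for all finitely generated injective modules -/
theorem ev_inj {K A : Type} [Field K] [Ring A] [Algebra K A] [FiniteDimensional K A]
    (hE : EV A (QD K A) A) (I : Type) [AddCommGroup I] [Module A I] [Module.Finite A I]
    (hI : Module.Injective A I) : EV A I A := by
  intro n
  obtain ⟨m, f, hf⟩ := qd_embedding (k := K) (A := A) I
  obtain ⟨r, hr⟩ := hI.out f hf LinearMap.id
  exact EX.retrL f r (fun y => hr y) ((hE n).powL m)

/-- the statement of S02360 -/
theorem W2360 (K : Type) [Field K] (h : ¬ TachikawaConjectureTwo K) :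
    ¬ (∀ (R A : Type) [CommRing R] [IsArtinianRing R] [Ring A] [Algebra R A] [Module.Finite R A]
      [CategoryTheory.HasExt.{0} (ModuleCat.{0} A)],
      (∀ (I : ModuleCat.{0} A), Module.Finite A I → Module.Injective A I →
        ∀ i : ℕ, 0 < i → Subsingleton (CategoryTheory.Abelian.Ext I (ModuleCat.of A A) i)) →
      Module.Injective A A) := by
  intro hG
  obtain ⟨A, _, _, _, hE, hI⟩ := core K h
  apply hI
  refine hG K A fun I hf hi i h0 => ?_
  obtain ⟨j, rfl⟩ : ∃ j, i = j + 1 := ⟨i - 1, by omega⟩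
  exact ev_inj hE I hi j

section Coh

variable (C A U : Type) [CommRing C] [Ring A] [Algebra C A] [AddCommGroup U] [Module C U]

/-- the coinduced module `Hom_C(A, U)` -/
def CoH : Type := A →ₗ[C] U

instance CoH.acg : AddCommGroup (CoH C A U) := inferInstanceAs (AddCommGroup (A →ₗ[C] U))

variable {C A U}

/-- evaluation -/
def CoH.ev (f : CoH C A U) (x : A) : U := (show A →ₗ[C] U from f) x

/-- constructor -/
def CoH.mk (f : A →ₗ[C] U) : CoH C A U := f

theorem CoH.ev_mk (f : A →ₗ[C] U) (x : A) : (CoH.mk f).ev x = f x := rfl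
theorem CoH.ext {f g : CoH C A U} (h : ∀ x, f.ev x = g.ev x) : f = g := LinearMap.ext h
theorem CoH.add_ev (f g : CoH C A U) (x : A) : (f + g).ev x = f.ev x + g.ev x := rfl
theorem CoH.zero_ev (x : A) : (0 : CoH C A U).ev x = 0 := rfl
theorem CoH.ev_add (f : CoH C A U) (x y : A) : f.ev (x + y) = f.ev x + f.ev y :=
  (show A →ₗ[C] U from f).map_add x y
theorem CoH.ev_zero (f : CoH C A U) : f.ev 0 = 0 := (show A →ₗ[C] U from f).map_zero
theorem CoH.ev_smul' (f : CoH C A U) (c : C) (x : A) : f.ev (c • x) = c • f.ev x :=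
  (show A →ₗ[C] U from f).map_smul c x

instance CoH.smulA : SMul A (CoH C A U) :=
  ⟨fun a f => CoH.mk ((show A →ₗ[C] U from f) ∘ₗ LinearMap.mulRight C a)⟩

theorem CoH.smul_ev (a : A) (f : CoH C A U) (x : A) : (a • f).ev x = f.ev (x * a) := rfl

instance CoH.modA : Module A (CoH C A U) where
  one_smul f := CoH.ext fun x => by rw [CoH.smul_ev, mul_one]
  mul_smul a b f := CoH.ext fun x => by rw [CoH.smul_ev, CoH.smul_ev, CoH.smul_ev, mul_assoc]
  smul_zero a := CoH.ext fun x => by rw [CoH.smul_ev, CoH.zero_ev, CoH.zero_ev]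
  smul_add a f g := CoH.ext fun x => by
    rw [CoH.smul_ev, CoH.add_ev, CoH.add_ev, CoH.smul_ev, CoH.smul_ev]
  add_smul a b f := CoH.ext fun x => by
    rw [CoH.smul_ev, CoH.add_ev, CoH.smul_ev, CoH.smul_ev, mul_add, CoH.ev_add]
  zero_smul f := CoH.ext fun x => by rw [CoH.smul_ev, CoH.zero_ev, mul_zero, CoH.ev_zero]

instance CoH.modC : Module C (CoH C A U) := inferInstanceAs (Module C (A →ₗ[C] U))

theorem CoH.csmul_ev (c : C) (f : CoH C A U) (x : A) : (c • f).ev x = c • f.ev x := rfl

instance CoH.tower : IsScalarTower C A (CoH C A U) := ⟨fun c a f => CoH.ext fun x => by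
  rw [CoH.smul_ev, CoH.csmul_ev, CoH.smul_ev, mul_smul_comm, CoH.ev_smul']⟩

theorem CoH.injective (hU : Module.Injective C U) : Module.Injective A (CoH C A U) := by
  refine ⟨fun X Y _ _ _ _ i hi u => ?_⟩
  let _ : Module C X := Module.compHom X (algebraMap C A)
  let _ : Module C Y := Module.compHom Y (algebraMap C A)
  have hsX : ∀ (c : C) (x : X), c • x = (algebraMap C A c) • x := fun _ _ => rfl
  have hsY : ∀ (c : C) (x : Y), c • x = (algebraMap C A c) • x := fun _ _ => rfl
  let i0 : X →ₗ[C] Y :=
    { toFun := i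
      map_add' := fun x y => map_add i x y
      map_smul' := fun c x => by rw [hsX, map_smul, hsY, RingHom.id_apply] }
  let u0 : X →ₗ[C] U :=
    { toFun := fun x => (u x).ev 1
      map_add' := fun x y => by rw [map_add, CoH.add_ev]
      map_smul' := fun c x => by
        rw [hsX, map_smul, CoH.smul_ev, one_mul, RingHom.id_apply, Algebra.algebraMap_eq_smul_one,
          CoH.ev_smul'] }
  obtain ⟨v0, hv0⟩ := hU.out i0 hi u0
  let w (y : Y) : A →ₗ[C] U :=
    { toFun := fun a => v0 (a • y)
      map_add' := fun a b => by rw [add_smul, map_add]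
      map_smul' := fun c a => by
        have h1 : (c • a) • y = c • (a • y) := by
          rw [hsY, Algebra.smul_def, mul_smul]
        rw [h1, map_smul, RingHom.id_apply] }
  have hw : ∀ (y : Y) (a : A), w y a = v0 (a • y) := fun _ _ => rfl
  let v : Y →ₗ[A] CoH C A U :=
    { toFun := fun y => CoH.mk (w y)
      map_add' := fun x y => CoH.ext fun a => by
        rw [CoH.add_ev, CoH.ev_mk, CoH.ev_mk, CoH.ev_mk, hw, hw, hw, smul_add, map_add]
      map_smul' := fun b y => CoH.ext fun a => by
        rw [RingHom.id_apply, CoH.smul_ev, CoH.ev_mk, CoH.ev_mk, hw, hw, mul_smul] }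
  refine ⟨v, fun x => CoH.ext fun a => ?_⟩
  have h1 : (v (i x)).ev a = v0 (a • i x) := rfl
  have h2 : v0 (i0 (a • x)) = u0 (a • x) := hv0 (a • x)
  have h3 : i0 (a • x) = a • i x := map_smul i a x
  have h4 : u0 (a • x) = (u (a • x)).ev 1 := rfl
  rw [h1, ← h3, h2, h4, map_smul, CoH.smul_ev, one_mul]

theorem CoH.finite [IsArtinianRing C] [Module.Finite C A] [Module.Finite C U] :
    Module.Finite A (CoH C A U) := by
  have h1 : Module.Finite C (A →ₗ[C] U) := finite_hom (k := C) (R := C)
  have h2 : Module.Finite C (CoH C A U) := h1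
  exact Module.Finite.of_restrictScalars_finite C A (CoH C A U)

end Coh

end Pool.Agent.Run7.h102.Nak
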