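import Pool.Agent.Run7.h102.Nak.WB
import Pool.Agent.Helper426_TauT.Center

set_option autoImplicit false
set_option linter.unusedSectionVars false
open scoped TensorProduct
open CategoryTheory MulOpposite

namespace Pool.Agent.Run7.h102.Nak

open Pool.Agent.Results.MP_5dc868_al.NakayamaEquivalent
open Pool.Agent.Helper426TauT Pool.Agent.Helper426GSC Pool.Agent.Helper426Tach _root_.Run7.h692 _root_.Run7.h692.Eq

/-- injective hulls of finitely generated modules over a finite-dimensional algebra -/
theorem hull {K C : Type} [Field K] [Ring C] [Algebra K C] [FiniteDimensional K C]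
    (S : Type) [AddCommGroup S] [Module C S] [Module.Finite C S] :
    ∃ (E : ModuleCat.{0} C) (_ : Module.Injective C E) (_ : Module.Finite C E) (f : S →ₗ[C] E),
      Function.Injective f ∧
        ∀ N : Submodule C E, N ≠ ⊥ → N ⊓ LinearMap.range f ≠ ⊥ := by
  obtain ⟨n, e, he⟩ := qd_embedding (k := K) (A := C) S
  have hW0 : Module.Injective C (QD K C) := qd_injective
  have hW : Module.Injective C (Fin n → QD K C) := injective_pow (Q := ModuleCat.of C (QD K C)) hW0 n
  have hf : Module.Finite C (QD K C) := qd_finite
  have hN : IsNoetherianRing C := isNoeth K C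
  have hfW : Module.Finite C (Fin n → QD K C) := inferInstance
  have hNW : IsNoetherian C (Fin n → QD K C) := isNoetherian_of_isNoetherianRing_of_finite C _
  obtain ⟨U, hU, hess, r, hr⟩ := exists_hull hW (LinearMap.range e)
  have hmem : ∀ x, e x ∈ U := fun x => hU ⟨x, rfl⟩
  refine ⟨ModuleCat.of C U, inj_of_retract U.subtype r hr hW, ?_, e.codRestrict U hmem, ?_, ?_⟩
  · exact Module.Finite.of_surjective r fun u => ⟨u.1, LinearMap.congr_fun hr u⟩
  · intro x y hxy
    exact he (congrArg Subtype.val hxy)
  · intro N hN h0
    have h1 : N.map U.subtype ≠ ⊥ := by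
      intro h2
      apply hN
      rw [eq_bot_iff]
      intro x hx
      have h3 : U.subtype x ∈ N.map U.subtype := ⟨x, hx, rfl⟩
      rw [h2, Submodule.mem_bot] at h3
      exact Subtype.ext h3
    have h2 : N.map U.subtype ≤ U := by
      rintro _ ⟨x, _, rfl⟩
      exact x.2
    apply hess _ h2 h1
    rw [eq_bot_iff]
    rintro y ⟨⟨x, hx, rfl⟩, ⟨s, hs⟩⟩
    have h3 : x ∈ N ⊓ LinearMap.range (e.codRestrict U hmem) := by
      refine ⟨hx, s, ?_⟩
      exact Subtype.ext hs
    rw [h0] at h3
    have h4 : x = 0 := h3
    rw [Submodule.mem_bot, h4]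
    rfl

/-- the statement of S01710 -/
theorem W1710 (K : Type) [Field K] (h : ¬ TachikawaConjectureTwo K) :
    ¬ (∀ (R : Type) [Ring R] [HasExt.{0} (ModuleCat.{0} R)],
    IsArtinianRing (Subring.center R) → Module.Finite (Subring.center R) R →
    ∀ (E : Type) [AddCommGroup E] [Module (Subring.center R) E],
      Module.Injective (Subring.center R) E →
      ∀ (f : ((Subring.center R) ⧸ (⊥ : Ideal (Subring.center R)).jacobson) →ₗ[Subring.center R] E),
        Function.Injective f →
        (∀ N : Submodule (Subring.center R) E, N ≠ ⊥ → N ⊓ LinearMap.range f ≠ ⊥) →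
      ∀ (Q : ModuleCat.{0} R) (φ : Q ≃+ (R →ₗ[Subring.center R] E)),
        (∀ (r : R) (q : Q) (x : R), φ (r • q) x = φ q (x * r)) →
        (∀ n : ℕ, Subsingleton (Abelian.Ext.{0} Q (ModuleCat.of R R) (n + 1))) →
        Module.Injective R R) := by
  intro hG
  obtain ⟨A, _, _, _, hE, hI⟩ := core K h
  apply hI
  obtain ⟨h1, h2⟩ := center_artin K A
  have hmap : ∀ c : K, algebraMap K A c ∈ Subring.center A := by
    intro c
    rw [Subring.mem_center_iff]
    intro r
    exact (Algebra.commutes c r).symm
  let g : K →+* Subring.center A := (algebraMap K A).codRestrict _ hmap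
  let _ : Algebra K (Subring.center A) := g.toAlgebra
  have hfd : FiniteDimensional K (Subring.center A) := by
    let j : Subring.center A →ₗ[K] A :=
      { toFun := fun z => z.1
        map_add' := fun x y => rfl
        map_smul' := fun c z => (Algebra.smul_def c z.1).symm }
    exact Module.Finite.of_injective j Subtype.val_injective
  obtain ⟨E, hEi, hEf, f, hf, hess⟩ := hull (K := K) (C := Subring.center A)
    ((Subring.center A) ⧸ (⊥ : Ideal (Subring.center A)).jacobson)
  have hQi : Module.Injective A (CoH (Subring.center A) A E) := CoH.injective hEi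
  have hQf : Module.Finite A (CoH (Subring.center A) A E) := CoH.finite
  exact hG A h2 h1 E hEi f hf hess (ModuleCat.of A (CoH (Subring.center A) A E))
    { toFun := fun q => q
      invFun := fun q => q
      left_inv := fun _ => rfl
      right_inv := fun _ => rfl
      map_add' := fun _ _ => rfl } (fun r q x => rfl)
    (fun n => ev_inj hE (CoH (Subring.center A) A E) hQi n)

end Pool.Agent.Run7.h102.Nak
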